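import Pool.Agent.Lib.helper3.Potapov

set_option autoImplicit false

namespace Pool.Agent.Results.MP_a5aa7c_an.BlaschkePotapov

open MeasureTheory AddCircle Filter Topology InnerProductSpace Module
open Pool.Agent.Lib.helper3.Potapov
open scoped ComplexConjugate

noncomputable section

section
variable {E : Type} [NormedAddCommGroup E] [InnerProductSpace ℂ E]

abbrev HH (E : Type) [NormedAddCommGroup E] := lp (fun _ : ℕ => E) 2

omit [InnerProductSpace ℂ E] in
lemma norm_sq_split (g h : HH E) (hgh : ∀ i, g (i + 1) = h i) :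
    ‖g‖ ^ 2 = ‖g 0‖ ^ 2 + ‖h‖ ^ 2 := by
  have h1 := lp.hasSum_norm (p := 2) (by norm_num) g
  have h2 := lp.hasSum_norm (p := 2) (by norm_num) h
  simp only [ENNReal.toReal_ofNat, Real.rpow_two] at h1 h2
  have h3 := (hasSum_nat_add_iff' 1).2 h1
  simp only [hgh, Finset.range_one, Finset.sum_singleton] at h3
  have := h3.unique h2
  linarith

def emb : (ℕ →₀ E) →ₗ[ℂ] HH E := Finsupp.lsum ℂ fun j => lp.lsingle (𝕜 := ℂ) (E := fun _ : ℕ => E) 2 j

lemma emb_single (j : ℕ) (v : E) : emb (Finsupp.single j v) = lp.single 2 j v := by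
  simp [emb]

def sg : Module.End ℂ (ℕ →₀ E) := Finsupp.lmapDomain E ℂ Nat.succ

lemma sg_single (j : ℕ) (v : E) : sg (Finsupp.single j v) = Finsupp.single (j + 1) v := by
  simp [sg, Finsupp.mapDomain_single]

lemma sg_pow (k j : ℕ) (v : E) : (sg ^ k) (Finsupp.single j v) = Finsupp.single (j + k) v := by
  induction k with
  | zero => simp
  | succ k ih => rw [pow_succ', Module.End.mul_apply, ih, sg_single, add_assoc]

lemma toep (T : HH E →L[ℂ] HH E) (a : ℤ → E →L[ℂ] E)
    (hT : ∀ (i j : ℕ) (v : E), T (lp.single 2 j v) i = a ((i : ℤ) - j) v) (f : ℕ →₀ E) :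
    ‖T (emb (sg f))‖ ^ 2 = ‖T (emb (sg f)) 0‖ ^ 2 + ‖T (emb f)‖ ^ 2 := by
  refine norm_sq_split _ _ fun i => ?_
  induction f using Finsupp.induction_linear with
  | zero => simp
  | add f g hf hg => simp only [map_add, lp.coeFn_add, Pi.add_apply, hf, hg]
  | single j v =>
    rw [sg_single, emb_single, emb_single, hT, hT]
    congr 2; push_cast; ring

def ev0 : HH E →ₗ[ℂ] E where
  toFun g := g 0
  map_add' _ _ := rfl
  map_smul' _ _ := rfl

lemma coord_lim (h : HH E) (v : E) (j : ℕ) :
    Tendsto (fun k => inner ℂ h (lp.single 2 (j + k) v : HH E)) atTop (𝓝 0) := by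
  simp only [lp.inner_single_right]
  have h1 := (lp.hasSum_norm (p := 2) (by norm_num) h).summable.tendsto_atTop_zero
  simp only [ENNReal.toReal_ofNat, Real.rpow_two] at h1
  have h2 : Tendsto (fun k => h k) atTop (𝓝 0) := by
    rw [tendsto_zero_iff_norm_tendsto_zero]
    have := h1.sqrt
    simpa using this
  have h3 := h2.comp (tendsto_add_atTop_nat j)
  simpa [add_comm j] using h3.inner (𝕜 := ℂ) (tendsto_const_nhds (x := v))

lemma ex_sqrt {H : Type} [NormedAddCommGroup H] [InnerProductSpace ℂ H] [CompleteSpace H]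
    (C : H →L[ℂ] H) (hpos : C.IsPositive) : ∃ D : H →L[ℂ] H, IsSelfAdjoint D ∧ D * D = C := by
  have h0 : 0 ≤ C := (ContinuousLinearMap.nonneg_iff_isPositive C).2 hpos
  exact ⟨CFC.sqrt C, IsSelfAdjoint.of_nonneg (CFC.sqrt_nonneg C), CFC.sqrt_mul_sqrt_self C h0⟩

lemma comm_inner {H : Type} [NormedAddCommGroup H] [InnerProductSpace ℂ H] [CompleteSpace H]
    (T : H →L[ℂ] H) (g : H) :
    (inner ℂ g ((star T * T - T * star T) g)).re = ‖T g‖ ^ 2 - ‖(star T) g‖ ^ 2 := by
  have h1 : inner ℂ g (T ((star T) g)) = inner ℂ ((star T) g) ((star T) g) :=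
    (ContinuousLinearMap.adjoint_inner_left T _ _).symm
  have h2 : inner ℂ g ((star T) (T g)) = inner ℂ (T g) (T g) :=
    ContinuousLinearMap.adjoint_inner_right T _ _
  rw [_root_.sub_apply, inner_sub_right, mul_apply_eq_comp, mul_apply_eq_comp, h1, h2,
    inner_self_eq_norm_sq_to_K, inner_self_eq_norm_sq_to_K]
  norm_cast

lemma star_toep [CompleteSpace E] (T : HH E →L[ℂ] HH E) (a : ℤ → E →L[ℂ] E)
    (hT : ∀ (i j : ℕ) (v : E), T (lp.single 2 j v) i = a ((i : ℤ) - j) v) (i j : ℕ) (v : E) :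
    (star T) (lp.single 2 j v) i = star (a (-((i : ℤ) - j))) v := by
  refine ext_inner_left ℂ fun w => ?_
  have h1 := lp.inner_single_left (𝕜 := ℂ) (G := fun _ : ℕ => E) i w ((star T) (lp.single 2 j v))
  have h2 := lp.inner_single_right (𝕜 := ℂ) (G := fun _ : ℕ => E) j v (T (lp.single 2 i w))
  rw [← h1, ContinuousLinearMap.star_eq_adjoint, ContinuousLinearMap.star_eq_adjoint,
    ContinuousLinearMap.adjoint_inner_right, ContinuousLinearMap.adjoint_inner_right, h2, hT,
    neg_sub]

lemma state [CompleteSpace E] (C : HH E →L[ℂ] HH E) (hpos : C.IsPositive)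
    (hfin : FiniteDimensional ℂ (LinearMap.range (C : HH E →ₗ[ℂ] HH E))) :
    ∃ (R : Type) (_ : NormedAddCommGroup R) (_ : InnerProductSpace ℂ R) (_ : FiniteDimensional ℂ R)
      (x : (ℕ →₀ E) →ₗ[ℂ] R), finrank ℂ R = finrank ℂ (LinearMap.range (C : HH E →ₗ[ℂ] HH E)) ∧
      Function.Surjective x ∧ (∀ f, (‖x f‖ ^ 2 : ℝ) = (inner ℂ (emb f) (C (emb f))).re) ∧
      ∀ f, Tendsto (fun k => x ((sg ^ k) f)) atTop (𝓝 0) := by
  obtain ⟨D, hD, hDD⟩ := ex_sqrt C hpos
  have hsym : ∀ a b, inner ℂ (D a) b = inner ℂ a (D b) := fun a b => hD.isSymmetric a b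
  have hC : ∀ a, C a = D (D a) := fun a => by rw [← hDD]; rfl
  let R := LinearMap.range (D : HH E →ₗ[ℂ] HH E)
  let φ : R →ₗ[ℂ] LinearMap.range (C : HH E →ₗ[ℂ] HH E) :=
    ((D : HH E →ₗ[ℂ] HH E).domRestrict R).codRestrict _ (by
      rintro ⟨_, a, rfl⟩; exact ⟨a, hC a⟩)
  have hφ : Function.Bijective φ := by
    constructor
    · rw [← LinearMap.ker_eq_bot, LinearMap.ker_eq_bot']
      rintro ⟨_, a, rfl⟩ h
      have h1 : D (D a) = 0 := congrArg Subtype.val h
      have h2 : inner ℂ (D a) (D a) = 0 := by rw [hsym, h1, inner_zero_right]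
      exact Subtype.ext (inner_self_eq_zero.1 h2)
    · rintro ⟨_, a, rfl⟩
      exact ⟨⟨D a, a, rfl⟩, Subtype.ext (hC a).symm⟩
  let e := LinearEquiv.ofBijective φ hφ
  have hR : FiniteDimensional ℂ R := e.symm.finiteDimensional
  let x : (ℕ →₀ E) →ₗ[ℂ] R := (D : HH E →ₗ[ℂ] HH E).rangeRestrict ∘ₗ emb
  have hx : ∀ f, (x f : HH E) = D (emb f) := fun f => rfl
  refine ⟨R, inferInstance, inferInstance, hR, x, e.finrank_eq, ?_, fun f => ?_, fun f => ?_⟩
  · let S : Submodule ℂ (HH E) := LinearMap.range ((D : HH E →ₗ[ℂ] HH E) ∘ₗ emb)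
    have hSR : S ≤ R := LinearMap.range_comp_le_range _ _
    have : FiniteDimensional ℂ S := Submodule.finiteDimensional_of_le hSR
    have hcl : IsClosed (S : Set (HH E)) := S.closed_of_finiteDimensional
    rintro ⟨_, a, rfl⟩
    have h1 := (lp.hasSum_single (p := 2) (by simp) a).mapL D
    have h2 : D a ∈ S := hcl.mem_of_tendsto h1 (Eventually.of_forall fun s =>
      S.sum_mem fun j _ => ⟨Finsupp.single j (a j), by simp [emb_single]⟩)
    obtain ⟨f, hf⟩ := h2
    exact ⟨f, Subtype.ext hf⟩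
  · rw [hC, ← hsym, ← hx, inner_self_eq_norm_sq_to_K]
    simp only [Submodule.coe_norm]
    norm_cast
  · induction f using Finsupp.induction_linear with
    | zero => simp
    | add f g hf hg => simpa using hf.add hg
    | single j v =>
      simp only [sg_pow]
      let b := stdOrthonormalBasis ℂ R
      have h1 : ∀ k, x (Finsupp.single (j + k) v) =
          ∑ i, inner ℂ (D (b i)) (lp.single 2 (j + k) v : HH E) • b i := by
        intro k
        conv_lhs => rw [← b.sum_repr' (x (Finsupp.single (j + k) v))]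
        refine Finset.sum_congr rfl fun i _ => ?_
        rw [hsym, ← emb_single, ← hx]
        rfl
      simp only [h1]
      have := tendsto_finsetSum (Finset.univ) fun i _ =>
        (coord_lim (D (b i)) v j).smul_const (b i)
      simpa using this

lemma coef_star [CompleteSpace E] {Φ : UnitAddCircle → E →L[ℂ] E} (hΦ : Integrable Φ haarAddCircle)
    (m : ℤ) : fourierCoeff (fun t => star (Φ t)) m = star (fourierCoeff Φ (-m)) := by
  simp only [fourierCoeff]
  have := ContinuousLinearMap.integral_comp_commSL (μ := haarAddCircle) RCLike.conj_smul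
    ((ContinuousLinearMap.adjoint (𝕜 := ℂ) (E := E) (F := E)).toLinearIsometry.toContinuousLinearMap)
    (int_four hΦ (- -m))
  refine Eq.trans ?_ this
  congr 1
  funext t
  simp only [map_smulₛₗ, neg_neg, fourier_neg]
  rfl

lemma coef_app [CompleteSpace E] {K : UnitAddCircle → E →L[ℂ] E} (hK : Integrable K haarAddCircle)
    (m : ℤ) (v : E) : fourierCoeff K m v = fourierCoeff (fun t => K t v) m :=
  (coef_clm (ContinuousLinearMap.apply ℂ E v) hK m).symm

end

section defs

/-- bounded operators on a complex inner product space -/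
abbrev Op (H : Type) [NormedAddCommGroup H] [InnerProductSpace ℂ H] : Type := H →L[ℂ] H

section
variable {H : Type} [NormedAddCommGroup H] [InnerProductSpace ℂ H]

/-- application of an operator -/
def ap (T : Op H) (x : H) : H := T x

/-- adjoint -/
def adj [CompleteSpace H] (T : Op H) : Op H := star T

/-- self-commutator `T*T - TT*` -/
def comm [CompleteSpace H] (T : Op H) : Op H := adj T * T - T * adj T

/-- range of an operator -/
def ran (T : Op H) : Submodule ℂ H := LinearMap.range T.toLinearMap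

/-- the self-commutator is positive semidefinite and has finite rank `r` -/
def HypoRank [CompleteSpace H] (T : Op H) (r : ℕ) : Prop :=
  (comm T).IsPositive ∧ FiniteDimensional ℂ (ran (comm T)) ∧ finrank ℂ (ran (comm T)) = r

end

variable {E : Type} [NormedAddCommGroup E] [InnerProductSpace ℂ E]

/-- the sequence with `v` in place `j` and zero elsewhere -/
def sing (j : ℕ) (v : E) : HH E := lp.single 2 j v

/-- the `i`-th term of a square-summable sequence -/
def coord (g : HH E) (i : ℕ) : E := g i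

/-- Fourier coefficient of an operator-valued function -/
def coef (K : UnitAddCircle → Op E) (k : ℤ) : Op E := fourierCoeff K k

/-- essentially bounded (strongly measurable) operator-valued function -/
def InLinf (K : UnitAddCircle → Op E) : Prop := MemLp K ⊤ haarAddCircle

/-- `T` has the block Toeplitz matrix of the symbol `Φ` -/
def IsToeplitz (Φ : UnitAddCircle → Op E) (T : Op (HH E)) : Prop :=
  ∀ (i j : ℕ) (v : E), coord (ap T (sing j v)) i = ap (coef Φ ((i : ℤ) - j)) v

/-- `H^∞` : essentially bounded with vanishing negative Fourier coefficients -/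
def InHinf (K : UnitAddCircle → Op E) : Prop := InLinf K ∧ ∀ k < 0, coef K k = 0

/-- the set `E(Φ)` -/
def InE [CompleteSpace E] (Φ K : UnitAddCircle → Op E) : Prop :=
  InHinf K ∧ (∀ t, ‖K t‖ ≤ 1) ∧ InHinf fun t => Φ t - K t * adj (Φ t)

/-- Blaschke factor -/
def blaschke (a z : ℂ) : ℂ := (z - a) / (1 - conj a * z)

/-- Blaschke-Potapov factor -/
def factor (a : ℂ) (P : Op E) (z : ℂ) : Op E := blaschke a z • P + (1 - P)

/-- Blaschke-Potapov product -/
def potapov {N : ℕ} (ν : Op E) (α : Fin N → ℂ) (P : Fin N → Op E) (z : ℂ) : Op E :=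
  ν * (List.ofFn fun m => factor (α m) (P m) z).prod

/-- unitary operator -/
def IsUnitary [CompleteSpace E] (ν : Op E) : Prop := adj ν * ν = 1 ∧ ν * adj ν = 1

/-- nonzero orthogonal projection -/
def IsProj [CompleteSpace E] (P : Op E) : Prop := P * P = P ∧ adj P = P ∧ P ≠ 0

/-- admissible data of a Blaschke-Potapov product -/
def Admissible [CompleteSpace E] {N : ℕ} (ν : Op E) (α : Fin N → ℂ) (P : Fin N → Op E) : Prop :=
  IsUnitary ν ∧ ∀ m, ‖α m‖ < 1 ∧ IsProj (P m)

lemma det_fac' [FiniteDimensional ℂ E] (p : ℂ × E) (hp : ‖p.2‖ = 1) (z : ℂ) :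
    (fac p z).det = bl p.1 z := by
  let b := stdOrthonormalBasis ℂ E
  have e : fac p z = 1 + rankOne ℂ ((bl p.1 z - 1) • p.2) p.2 := by
    ext1 v
    simp only [fac_apply, _root_.add_apply, one_apply_eq_self, rankOne_apply, smul_smul]
    congr 2; ring
  rw [ContinuousLinearMap.det, ← LinearMap.det_toMatrix b.toBasis, e,
    ContinuousLinearMap.toLinearMap_add, map_add, InnerProductSpace.toMatrix_rankOne,
    ContinuousLinearMap.toLinearMap_one, LinearMap.toMatrix_one,
    Matrix.vecMulVec_eq Unit, Matrix.det_one_add_replicateCol_mul_replicateRow]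
  have h : inner ℂ p.2 ((bl p.1 z - 1) • p.2) = bl p.1 z - 1 := by
    rw [inner_smul_right, inner_self_eq_norm_sq_to_K, hp]; simp
  rw [← b.repr.inner_map_map, EuclideanSpace.inner_eq_star_dotProduct, dotProduct_comm] at h
  have h' : star (b.repr p.2).ofLp ⬝ᵥ ⇑(b.toBasis.repr ((bl p.1 z - 1) • p.2)) = bl p.1 z - 1 := by
    refine Eq.trans ?_ h
    congr 1
  rw [h']; ring

lemma det_BP' [FiniteDimensional ℂ E] {L : List (ℂ × E)} (hL : ∀ p ∈ L, Good p) (z : ℂ) :
    (BP L z).det = (L.map fun p => bl p.1 z).prod := by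
  induction L with
  | nil => simp [BP, ContinuousLinearMap.det]
  | cons p L ih =>
    rw [BP_cons, List.map_cons, List.prod_cons, ← ih fun q hq => hL q (by simp [hq]),
      ← det_fac' p (hL p (by simp)).2 z]
    simp only [ContinuousLinearMap.det, ContinuousLinearMap.toLinearMap_mul, map_mul]

end defs

theorem result (E : Type) [NormedAddCommGroup E] [InnerProductSpace ℂ E] [CompleteSpace E]
    [FiniteDimensional ℂ E] (Φ : UnitAddCircle → Op E) (hΦ : InLinf Φ)
    (T : Op (HH E)) (hT : IsToeplitz Φ T) (r : ℕ) (hr : HypoRank T r) :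
    ∃ (ν : Op E) (α : Fin r → ℂ) (P : Fin r → Op E), Admissible ν α P ∧
      InE Φ (fun t => potapov ν α P (fourier 1 t)) ∧
      ∃ c : ℂ, c ≠ 0 ∧ ∀ z, (potapov ν α P z).det = c * ∏ m, blaschke (α m) z := by
  obtain ⟨hpos, hfin, hr0⟩ := hr
  replace hΦ : MemLp Φ ⊤ haarAddCircle := hΦ
  replace hT : ∀ (i j : ℕ) (v : E), T (lp.single 2 j v) i = fourierCoeff Φ ((i : ℤ) - j) v := hT
  have hi : Integrable Φ haarAddCircle := hΦ.integrable le_top
  have hΦs : MemLp (fun t => star (Φ t)) ⊤ haarAddCircle := hΦ.star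
  have his : Integrable (fun t => star (Φ t)) haarAddCircle := hΦs.integrable le_top
  have hTs : ∀ (i j : ℕ) (v : E),
      (star T) (lp.single 2 j v) i = fourierCoeff (fun t => star (Φ t)) ((i : ℤ) - j) v := by
    intro i j v
    rw [coef_star hi]
    exact star_toep T _ hT i j v
  obtain ⟨R, _, _, _, x, hr, hx, hxn, hlim⟩ := state _ hpos hfin
  have hxn' : ∀ f, ‖x f‖ ^ 2 = ‖T (emb f)‖ ^ 2 - ‖(star T) (emb f)‖ ^ 2 := by
    intro f
    rw [hxn]; exact comm_inner T _
  obtain ⟨ν, L, h1, h2, h3⟩ := core _ R hr _ sg x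
    (ev0 ∘ₗ (star T).toLinearMap ∘ₗ emb ∘ₗ sg) (ev0 ∘ₗ T.toLinearMap ∘ₗ emb ∘ₗ sg) hx
    (fun f => by
      have a1 := toep T _ hT f
      have a2 := toep (star T) _ hTs f
      rw [hxn', hxn', a1, a2]
      show _ + ‖T (emb (sg f)) 0‖ ^ 2 = _ + ‖(star T) (emb (sg f)) 0‖ ^ 2
      ring) hlim
  obtain rfl : L.length = r := h1.trans hr0
  have hB : ∀ z : ℂ, potapov (ν : E →L[ℂ] E) (fun m => (L.get m).1)
      (fun m => rankOne ℂ (L.get m).2 (L.get m).2) z = ν * BP L z := by
    intro z
    unfold BP potapov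
    congr 2
    conv_rhs => rw [← List.ofFn_get L, List.map_ofFn]
    rfl
  have hc : Continuous fun t : UnitAddCircle =>
      (ν : E →L[ℂ] E) * BP L (fourier 1 t) :=
    continuous_const.mul (BP_cont h2)
  have hn : ∀ t : UnitAddCircle,
      ‖(ν : E →L[ℂ] E) * BP L (fourier 1 t)‖ ≤ 1 := by
    intro t
    refine ContinuousLinearMap.opNorm_le_bound _ zero_le_one fun v => ?_
    rw [mul_apply_eq_comp, one_mul]
    exact (ν.norm_map _).le.trans (BP_norm h2 (norm_zz t) v).le
  have hm : MemLp (fun t : UnitAddCircle =>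
      (ν : E →L[ℂ] E) * BP L (fourier 1 t) *
        star (Φ t)) ⊤ haarAddCircle := by
    refine hΦs.of_le (hc.aestronglyMeasurable.mul hΦs.1) (Eventually.of_forall fun t => ?_)
    exact (norm_mul_le _ _).trans (mul_le_of_le_one_left (norm_nonneg _) (hn t))
  have hm0 : MemLp (fun t : UnitAddCircle => (ν : E →L[ℂ] E) * BP L (fourier 1 t)) ⊤
      haarAddCircle := memLp_top_of_bound hc.aestronglyMeasurable 1 (Eventually.of_forall hn)
  refine ⟨ν, fun m => (L.get m).1, fun m => rankOne ℂ (L.get m).2 (L.get m).2,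
    ⟨(Unitary.linearIsometryEquiv.symm ν).2, fun m => ?_⟩, ?_, ?_⟩
  rotate_left
  simp only [hB]
  refine ⟨⟨hm0, fun k hk => ?_⟩, hn, hΦ.sub hm, fun k hk => ?_⟩
  rotate_right
  · have hg := h2 _ (List.get_mem L m)
    have h0 : (L.get m).2 ≠ 0 := by
      intro h; have := hg.2; rw [h, norm_zero] at this; exact zero_ne_one this
    exact ⟨hg.1, (isStarProjection_rankOne_self hg.2).1, (isStarProjection_rankOne_self hg.2).2,
      rankOne_ne_zero h0 h0⟩
  · obtain ⟨j, rfl⟩ : ∃ j : ℕ, k = -1 - j := ⟨(-1 - k).toNat, by omega⟩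
    unfold coef
    ext1 v
    rw [coef_app (hc.integrable_of_hasCompactSupport (HasCompactSupport.of_compactSpace _))]
    have hi' : Integrable (fun t => BP L (zz t) v) haarAddCircle :=
      ((BP_cont h2).clm_apply continuous_const).integrable_of_hasCompactSupport
        (HasCompactSupport.of_compactSpace _)
    have := coef_clm (ν : E →L[ℂ] E) hi' (-1 - j)
    rw [BP_anal h2, map_zero] at this
    exact this
  · obtain ⟨j, rfl⟩ : ∃ j : ℕ, k = -1 - j := ⟨(-1 - k).toNat, by omega⟩
    unfold coef adj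
    rw [coef_sub hi (hm.integrable le_top), sub_eq_zero]
    ext1 v
    rw [coef_app (hm.integrable le_top)]
    have := h3 (Finsupp.single 0 v) (fun t => star (Φ t) v) (his.apply_continuousLinearMap v)
      (fun k => by
        show (star T) (emb (sg ((sg ^ k) (Finsupp.single 0 v)))) 0 = _
        rw [sg_pow, sg_single, emb_single, hTs, coef_app his]
        congr 1; push_cast; ring) j
    refine Eq.trans ?_ this
    show _ = T (emb (sg ((sg ^ j) (Finsupp.single 0 v)))) 0
    rw [sg_pow, sg_single, emb_single, hT]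
    congr 2; push_cast; ring
  · refine ⟨LinearMap.det (ν.toLinearEquiv : E →ₗ[ℂ] E),
      (LinearEquiv.isUnit_det' _).ne_zero, fun z => ?_⟩
    have : ∏ m : Fin L.length, blaschke (L.get m).1 z =
        (L.map fun p => bl p.1 z).prod := by
      rw [← List.prod_ofFn]
      congr 1
      conv_rhs => rw [← List.ofFn_get L, List.map_ofFn]
      rfl
    rw [this, ← det_BP' h2, hB]
    simp only [ContinuousLinearMap.det, ContinuousLinearMap.toLinearMap_mul, map_mul]
    rfl

end

end Pool.Agent.Results.MP_a5aa7c_an.BlaschkePotapov
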